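import Pool.Agent.H80.AN.TargetsA
import Pool.Agent.H35.SN.POH

/-! MP_2697e3_an, all dimensions, row NCK: the neck (after the row of helper17 in dimension three). -/

set_option autoImplicit false

namespace Pool.Agent.H37.AN

open MeasureTheory Metric Set Filter Topology Pool.Agent.H87.SN Pool.Agent.H87.SH Pool.Agent.H87.AX
  Pool.Agent.H22.AN
open scoped ContDiff RealInnerProductSpace ENNReal

theorem rho_sq {d : ℕ} (x : V d) : rho x ^ 2 = x 0 ^ 2 + x 1 ^ 2 := by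
  unfold rho
  rw [Real.sq_sqrt (by positivity)]

theorem norm_sq_split {d : ℕ} (x : V d) :
    ‖x‖ ^ 2 = x 0 ^ 2 + x 1 ^ 2 + ∑ i : Fin d, x i.succ.succ ^ 2 := by
  rw [EuclideanSpace.norm_sq_eq, Fin.sum_univ_succ, Fin.sum_univ_succ]
  simp only [Real.norm_eq_abs, sq_abs]
  rw [← add_assoc]
  rfl

theorem sq_le {a b : ℝ} (h : a ^ 2 ≤ b ^ 2) (hb : 0 ≤ b) : a ≤ b := by
  by_contra h1
  rw [not_le] at h1
  nlinarith

theorem rho_le_norm {d : ℕ} (x : V d) : rho x ≤ ‖x‖ := by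
  refine sq_le ?_ (norm_nonneg x)
  rw [rho_sq, norm_sq_split]
  have : 0 ≤ ∑ i : Fin d, x i.succ.succ ^ 2 := Finset.sum_nonneg fun i _ => sq_nonneg _
  linarith

theorem nzs_le_nsq {d m : ℕ} (T : V d →L[ℝ] E m) : nzs T ≤ nsq T := by
  unfold nzs nsq
  rw [Fin.sum_univ_succ, Fin.sum_univ_succ (f := fun i : Fin (d + 1) => ‖T (bv i.succ)‖ ^ 2)]
  have h1 := sq_nonneg ‖T (bv 0)‖
  have h2 := sq_nonneg ‖T (bv (Fin.succ 0))‖
  linarith

theorem norm_Pm {d : ℕ} (x : V d) : ‖Pm d x‖ = rho x := by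
  have h1 : ‖Pm d x‖ ^ 2 = rho x ^ 2 := by
    rw [norm_sq_split, rho_sq]
    simp [Pm]
  exact (pow_left_inj₀ (norm_nonneg _) (Pool.Agent.H35.SN.rho_nonneg x) two_ne_zero).1 h1

/-- integrability of the components -/
theorem int_nzs {d m : ℕ} {G : V d → V d →L[ℝ] E m}
    (hG : MemLp G 2 (volume.restrict (ball (0 : V d) 2))) :
    IntegrableOn (fun x => nzs (G x)) (ball 0 2) := by
  refine Pool.Agent.H35.SN.int_of_le hG _ 1 ?_ ?_
  · exact Pool.Agent.H35.SN.cont_nzs.comp_aestronglyMeasurable hG.1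
  · intro x _
    have h0 : 0 ≤ nzs (G x) := Finset.sum_nonneg fun i _ => sq_nonneg _
    rw [abs_of_nonneg h0, one_mul]
    exact nzs_le_nsq _

theorem int_Pm {d m : ℕ} {G : V d → V d →L[ℝ] E m}
    (hG : MemLp G 2 (volume.restrict (ball (0 : V d) 2))) :
    IntegrableOn (fun x => ‖G x (Pm d x)‖ ^ 2) (ball 0 2) := by
  have h1 : Integrable (fun x => ‖G x‖ ^ 2) (volume.restrict (ball (0 : V d) 2)) :=
    hG.integrable_norm_pow (by norm_num)
  refine Integrable.mono' (h1.const_mul 4)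
    (Pool.Agent.H35.SN.app_meas hG.1 _ (Pm d).continuous) ?_
  rw [ae_restrict_iff' measurableSet_ball]
  refine Eventually.of_forall fun x hx => ?_
  rw [Real.norm_eq_abs, abs_of_nonneg (by positivity)]
  have h3 : ‖Pm d x‖ ≤ 2 := by
    rw [norm_Pm]
    rw [mem_ball_zero_iff] at hx
    exact (rho_le_norm x).trans hx.le
  have h2 : ‖G x (Pm d x)‖ ≤ ‖G x‖ * 2 := ((G x).le_opNorm _).trans
    (mul_le_mul_of_nonneg_left h3 (norm_nonneg _))
  calc ‖G x (Pm d x)‖ ^ 2 ≤ (‖G x‖ * 2) ^ 2 := pow_le_pow_left₀ (norm_nonneg _) h2 2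
    _ = 4 * ‖G x‖ ^ 2 := by ring

theorem pf_NCK (_hMUF : T_MUF) (hEPR : T_EPR) (hRAD : T_RAD) (hANN : T_ANN) : T_NCK := by
  intro d m L Λ ε δ rc hL hΛ hε hδ hrc
  obtain ⟨e₀, he₀, hE⟩ := hEPR d m L ε (δ / 8) hL hε (by linarith)
  obtain ⟨M, C, hM, hC, hA⟩ := hANN d Λ (e₀ / (2 * 8 ^ d)) hΛ.le (by positivity)
  have hM0 : 0 < M := by linarith
  obtain ⟨om, hom⟩ : ∃ om : ℝ, om = min (e₀ * rc ^ (d + 2) / (8 * 8 ^ d * (C + 1))) δ := ⟨_, rfl⟩
  have hom0 : 0 < om := by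
    rw [hom]
    refine lt_min ?_ hδ
    positivity
  refine ⟨min (rc / M) (1 / 64), om, lt_min (by positivity) (by norm_num), hom0, ?_⟩
  intro U u G hS τ e x₀ hτ0 hτ hF
  have hτ1 : τ ≤ rc / M := hτ.trans (min_le_left _ _)
  have hτ2 : τ ≤ 1 / 64 := hτ.trans (min_le_right _ _)
  have hG : MemLp G 2 (volume.restrict (ball (0 : V d) 2)) := hS.gd.memG
  have hR := hRAD d m Λ G hS.gd τ om e x₀ hτ0 hτ2 hF
  have hfI : IntegrableOn (fun x => nzs (G x) + ‖G x (Pm d x)‖ ^ 2) (ball (0 : V d) 2) :=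
    (int_nzs hG).add (int_Pm hG)
  have hnz0 : ∀ x, 0 ≤ nzs (G x) := fun x => Finset.sum_nonneg fun i _ => sq_nonneg _
  have hf0 : ∀ x, 0 ≤ nzs (G x) + ‖G x (Pm d x)‖ ^ 2 := fun x =>
    add_nonneg (hnz0 x) (sq_nonneg _)
  constructor
  · intro x hx hrx
    have hx' : ‖x‖ < 5 / 8 := mem_ball_zero_iff.1 hx
    have hρ : 0 < rho x := hrc.trans_le hrx
    have hρn : rho x ≤ ‖x‖ := rho_le_norm x
    have hsub : {y : V d | y ∈ ball 0 (7 / 8) ∧ rho x / M < rho y} ⊆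
        {y : V d | y ∈ ball 0 (7 / 8) ∧ τ ≤ ‖y‖} := by
      rintro y ⟨hy, hy2⟩
      refine ⟨hy, ?_⟩
      have h2 : rc / M ≤ rho x / M := div_le_div_of_nonneg_right hrx hM0.le
      have h3 := rho_le_norm y
      linarith
    have hsub2 : {y : V d | y ∈ ball 0 (7 / 8) ∧ τ ≤ ‖y‖} ⊆ ball (0 : V d) 2 :=
      fun y hy => ball_subset_ball (by norm_num) hy.1
    have h1 : ∫ y in {y : V d | y ∈ ball 0 (7 / 8) ∧ rho x / M < rho y},
        (nzs (G y) + ‖G y (Pm d y)‖ ^ 2) ≤ 4 * om := by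
      refine (setIntegral_mono_set (hfI.mono_set hsub2) (Eventually.of_forall hf0)
        (LE.le.eventuallyLE hsub)).trans hR
    have h2 := hA m G hS.gd x hx hρ
    have hom1 : om * (8 * 8 ^ d * (C + 1)) ≤ e₀ * rc ^ (d + 2) := by
      rw [← le_div_iff₀ (by positivity), hom]
      exact min_le_left _ _
    have h3 : C / rho x ^ 2 * ∫ y in {y : V d | y ∈ ball 0 (7 / 8) ∧ rho x / M < rho y},
        (nzs (G y) + ‖G y (Pm d y)‖ ^ 2) ≤ e₀ / (2 * 8 ^ d) * rho x ^ d := by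
      have h4 : C / rho x ^ 2 ≤ C / rc ^ 2 :=
        div_le_div_of_nonneg_left hC (by positivity) (pow_le_pow_left₀ hrc.le hrx 2)
      calc C / rho x ^ 2 * ∫ y in {y : V d | y ∈ ball 0 (7 / 8) ∧ rho x / M < rho y},
          (nzs (G y) + ‖G y (Pm d y)‖ ^ 2)
          ≤ C / rho x ^ 2 * (4 * om) := mul_le_mul_of_nonneg_left h1 (by positivity)
        _ ≤ C / rc ^ 2 * (4 * om) := mul_le_mul_of_nonneg_right h4 (by positivity)
        _ ≤ e₀ / (2 * 8 ^ d) * rc ^ d := by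
            rw [div_mul_eq_mul_div, div_mul_eq_mul_div, div_le_div_iff₀ (by positivity)
              (by positivity)]
            have h5 : e₀ * rc ^ (d + 2) = e₀ * rc ^ d * rc ^ 2 := by ring
            have h6 : 0 ≤ om * (8 * 8 ^ d) := by positivity
            nlinarith
        _ ≤ e₀ / (2 * 8 ^ d) * rho x ^ d := by
            refine mul_le_mul_of_nonneg_left ?_ (by positivity)
            exact pow_le_pow_left₀ hrc.le hrx d
    have h5 : (mu G).real (ball x (rho x / 8)) ≤ e₀ * (rho x / 8) ^ d := by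
      have h6 : e₀ * (rho x / 8) ^ d = e₀ / (2 * 8 ^ d) * rho x ^ d +
          e₀ / (2 * 8 ^ d) * rho x ^ d := by
        rw [div_pow]
        field_simp
        ring
      rw [h6]
      linarith
    have h6 : ball x (rho x / 8) ⊆ ball (0 : V d) 2 := by
      refine ball_subset_ball' ?_
      rw [dist_zero_right]
      linarith
    obtain ⟨h7, h8⟩ := hE Λ U u G hS x (rho x / 8) (by positivity) h6 h5 x
      (mem_ball_self (by positivity))
    refine ⟨h7, ?_⟩
    have hen : 0 ≤ en u x := by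
      unfold en nsq
      exact Finset.sum_nonneg fun i _ => sq_nonneg _
    refine sq_le ?_ hδ.le
    rw [mul_pow, Real.sq_sqrt hen]
    nlinarith
  · have h1 : ∫ x in ball (0 : V d) (5 / 8), nzs (G x) ≤ ∫ x in ball (0 : V d) (7 / 8), nzs (G x) := by
      refine setIntegral_mono_set ((int_nzs hG).mono_set (ball_subset_ball (by norm_num)))
        (Eventually.of_forall fun x => hnz0 x) ?_
      exact LE.le.eventuallyLE (ball_subset_ball (by norm_num))
    have h2 : om ≤ δ := by rw [hom]; exact min_le_right _ _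
    exact h1.trans (hF.nz.trans h2)

end Pool.Agent.H37.AN
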