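import Pool.Agent.H80.AN.TargetsA
import Pool.Agent.H35.SN.POH

/-! MP_2697e3_an, all dimensions, row PID: the identity of Pohozaev (after the row of helper59 in
dimension three). -/

set_option autoImplicit false

namespace Pool.Agent.H37.AN

open MeasureTheory Metric Set Filter Topology Pool.Agent.H87.SN Pool.Agent.H87.SH Pool.Agent.H87.AX
open Pool.Agent.H22.AN Pool.Agent.H35.SN
open scoped ContDiff RealInnerProductSpace ENNReal

theorem pid_pw {d m : ℕ} (hLA1 : Pool.Agent.H87.SN.T_LA1) (T : E (d + 2) →L[ℝ] E m)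
    (x : E (d + 2)) (F : E (d + 2) →L[ℝ] ℝ) (f : ℝ) (hJ : F (Jm d x) = 0) :
    statF T (f • Pm d + F.smulRight (Pm d x)) =
      (2 * f - (- F (Pm d x))) * nzs T +
      (- F (Pm d x)) * ((rho x ^ 2)⁻¹ * ‖T (Pm d x)‖ ^ 2) -
      (- F (Pm d x)) * ((rho x ^ 2)⁻¹ * ‖T (Jm d x)‖ ^ 2) -
      2 * ∑ i : Fin d, F (bv i.succ.succ) * ⟪T (bv i.succ.succ), T (Pm d x)⟫ := by
  rw [statF_field]
  have hρe : rho x ^ 2 = x 0 ^ 2 + x 1 ^ 2 := by
    unfold rho
    rw [Real.sq_sqrt (by positivity)]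
  have hHJ := hJ
  rw [map_Jm] at hHJ
  simp only [smul_eq_mul] at hHJ
  have hHP : F (Pm d x) = x 0 * F (bv 0) + x 1 * F (bv 1) := by
    rw [map_Pm]
    simp only [smul_eq_mul]
  by_cases hρ : rho x = 0
  · rw [hρ] at hρe
    have h0 : x 0 = 0 := by nlinarith [sq_nonneg (x 0), sq_nonneg (x 1)]
    have h1 : x 1 = 0 := by nlinarith [sq_nonneg (x 0), sq_nonneg (x 1)]
    have hTP : T (Pm d x) = 0 := by
      rw [map_Pm, h0, h1, zero_smul, zero_smul, add_zero]
    have hTJ : T (Jm d x) = 0 := by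
      rw [map_Jm, h0, h1, neg_zero, zero_smul, zero_smul, add_zero]
    have hFP : F (Pm d x) = 0 := by
      rw [hHP, h0, h1]
      ring
    rw [hTP, hTJ, hFP]
    simp
    ring
  · have hρ2 : rho x ^ 2 ≠ 0 := pow_ne_zero 2 hρ
    have hn3 : nsq T = nzs T + (rho x ^ 2)⁻¹ * ‖T (Pm d x)‖ ^ 2 +
        (rho x ^ 2)⁻¹ * ‖T (Jm d x)‖ ^ 2 := by
      have h1 := hLA1 d m T x
      field_simp
      linarith
    have hwH : rho x ^ 2 • (∑ i, F (bv i) • T (bv i)) = (F (Pm d x)) • T (Pm d x) +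
        rho x ^ 2 • (∑ i : Fin d, F (bv i.succ.succ) • T (bv i.succ.succ)) := by
      rw [sum_split, smul_add]
      congr 1
      rw [map_Pm T x, smul_add, smul_add, smul_smul, smul_smul, smul_smul, smul_smul, hHP, hρe]
      congr 1
      · congr 1
        linear_combination (-(x 1)) * hHJ
      · congr 1
        linear_combination (x 0) * hHJ
    have hin : ⟪∑ i, F (bv i) • T (bv i), T (Pm d x)⟫ =
        F (Pm d x) * ((rho x ^ 2)⁻¹ * ‖T (Pm d x)‖ ^ 2) +
        ∑ i : Fin d, F (bv i.succ.succ) * ⟪T (bv i.succ.succ), T (Pm d x)⟫ := by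
      have h1 := congrArg (fun w : E m => ⟪w, T (Pm d x)⟫) hwH
      have h3 : ⟪∑ i : Fin d, F (bv i.succ.succ) • T (bv i.succ.succ), T (Pm d x)⟫ =
          ∑ i : Fin d, F (bv i.succ.succ) * ⟪T (bv i.succ.succ), T (Pm d x)⟫ := by
        rw [sum_inner]
        refine Finset.sum_congr rfl fun i _ => ?_
        rw [real_inner_smul_left]
      simp only [inner_add_left] at h1
      rw [real_inner_smul_left, real_inner_smul_left, real_inner_smul_left, h3,
        real_inner_self_eq_norm_sq] at h1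
      have h2 : ⟪∑ i, F (bv i) • T (bv i), T (Pm d x)⟫ = (rho x ^ 2)⁻¹ *
          (rho x ^ 2 * ⟪∑ i, F (bv i) • T (bv i), T (Pm d x)⟫) := by
        rw [← mul_assoc, inv_mul_cancel₀ hρ2, one_mul]
      rw [h2, h1, mul_add, ← mul_assoc ((rho x ^ 2)⁻¹) (rho x ^ 2), inv_mul_cancel₀ hρ2, one_mul]
      ring
    rw [hin, hn3]
    ring

theorem pf_PID (hLA1 : Pool.Agent.H87.SN.T_LA1) : T_PID := by
  intro d m G hG hS f hf hfc hfs hJ
  have h1 := stat_ball (ζ := f) (η := fun _ => (1 : ℝ)) hS hf hfc hfs contDiff_const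
  rw [← h1]
  congr 1
  funext x
  rw [field_fderiv hf contDiff_const x]
  have h2 : f x • fderiv ℝ (fun _ : E (d + 2) => (1 : ℝ)) x + (1 : ℝ) • fderiv ℝ f x =
      fderiv ℝ f x := by
    rw [fderiv_fun_const]
    simp
  rw [h2, mul_one]
  exact (pid_pw hLA1 (G x) x (fderiv ℝ f x) (f x) (hJ x)).symm

end Pool.Agent.H37.AN
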